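import Pool.Agent.H731R3.GA.Main

/-!
Counterexamples to the Schanuel-type conjecture for the Gamma function are rare: twice the
Gamma-closure dimension bounds the transcendence degree from below, and for two arguments the
exceptional set is countable.
-/

set_option autoImplicit false

namespace Pool.Agent.Results.MP_26ad15_nt.GammaClosure

open Pool.Agent.H731R3.GA

theorem result :
    (∀ A : Set ℂ, A.Countable → (gammaClosure A).Countable) ∧
    (∀ (n : ℕ) (z : Fin n → ℂ), ∃ I : Finset (Fin n), (∀ j, z j ∈ gammaClosure (z '' I)) ∧
      ((2 * I.card : ℕ) : Cardinal) ≤ Algebra.trdeg ℚ (gammaField z)) ∧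
    {z : Fin 2 → ℂ | Algebra.trdeg ℚ (gammaField z) < 2}.Countable :=
  ⟨gammaClosure_countable, fun _ z => dim_le z, pairs_countable⟩

end Pool.Agent.Results.MP_26ad15_nt.GammaClosure
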