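import Pool.Agent.H731R3.GA.CommC

/-!
The Schanuel-type conjecture for the Gamma function along complex lines: coordinates with
commensurable directions that satisfy condition (H) somewhere on the line.
-/

set_option autoImplicit false

namespace Pool.Agent.Results.MP_26ad15_nt.LineComm

open Pool.Agent.H731R3.GA

theorem result :
    ∀ (F : Type) [Field F] [Algebra F ℂ] [Countable F] (n : ℕ) (a b : Fin n → ℂ)
      (J : Finset (Fin n)) (t₀ : ℂ), J.Nonempty → (∀ i ∈ J, a i ≠ 0) →
      (∀ i ∈ J, ∀ j ∈ J, ∃ q : ℚ, a j = q * a i) →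
      (∀ i ∈ J, ∀ j ∈ J, i ≠ j → ∀ q q' : ℚ,
        a j * t₀ + b j ≠ q * (a i * t₀ + b i) + q') →
      {t : ℂ | Algebra.trdeg F (IntermediateField.adjoin F
        (Set.range (fun k => a k * t + b k) ∪
          Set.range fun k => Complex.Gamma (a k * t + b k))) < J.card + 1}.Countable := by
  intro F _ _ _ n a b J t₀ hJ ha hq hH
  exact comm_family F a b J t₀ hJ ha hq hH

end Pool.Agent.Results.MP_26ad15_nt.LineComm
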