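import Pool.Agent.H731R3.GA.Pole

/-!
The Schanuel-type conjecture for the Gamma function along complex lines: a lower bound that exceeds
the rank of the direction by two, for directions in general position with respect to one coordinate.
-/

set_option autoImplicit false

namespace Pool.Agent.Results.MP_26ad15_nt.LinePole

open Pool.Agent.H731R3.GA

theorem result :
    ∀ (F : Type) [Field F] [Algebra F ℂ] [Countable F] (n r : ℕ) (a b : Fin n → ℂ)
      (i : Fin n) (e : Fin r → Fin n), a i ≠ 0 →
      LinearIndependent ℚ (fun k => (a (e k) / a i).re) →
      (∀ k, (a (e k) / a i).im ≠ 0) →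
      {t : ℂ | Algebra.trdeg F (IntermediateField.adjoin F
        (Set.range (fun k => a k * t + b k) ∪
          Set.range fun k => Complex.Gamma (a k * t + b k))) < r + 2}.Countable := by
  intro F _ _ _ n r a b i e hi hre him
  exact pole_over F a b i e hi hre him

end Pool.Agent.Results.MP_26ad15_nt.LinePole
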