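import Pool.Agent.H731R3.GA.Over

/-!
The Schanuel-type conjecture for the Gamma function along complex lines: at all but countably many
points of a line the transcendence degree exceeds the rank over the rationals of the direction.
-/

set_option autoImplicit false

namespace Pool.Agent.Results.MP_26ad15_nt.LineRank

open Pool.Agent.H731R3.GA

theorem result :
    ∀ (F : Type) [Field F] [Algebra F ℂ] [Countable F] (n : ℕ) (a b : Fin n → ℂ), a ≠ 0 →
      {t : ℂ | Algebra.trdeg F (IntermediateField.adjoin F
        (Set.range (fun k => a k * t + b k) ∪
          Set.range fun k => Complex.Gamma (a k * t + b k))) <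
        Module.finrank ℚ (Submodule.span ℚ (Set.range a)) + 1}.Countable := by
  intro F _ _ _ n a b ha
  exact rank_over F a b ha

end Pool.Agent.Results.MP_26ad15_nt.LineRank
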